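import Pool.Agent.Q218.HB.Stm4

/-! Project HB2 (helper218), job TAI (helper252): the number of the eigenvalues outside `[-R, R]`. -/

set_option autoImplicit false

open MeasureTheory

namespace Pool.Agent.Q252.HB

open Pool.Agent.Q218.HB Module
open scoped InnerProductSpace

section

variable {Λ : Type} [Fintype Λ] [DecidableEq Λ]

/-- the vector in the euclidean space -/
noncomputable def vec (f : Λ → ℂ) : EuclideanSpace ℂ Λ := WithLp.toLp 2 f

omit [Fintype Λ] [DecidableEq Λ] in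
theorem vec_apply (f : Λ → ℂ) (x : Λ) : vec f x = f x := rfl

omit [DecidableEq Λ] in
theorem ip (f g : EuclideanSpace ℂ Λ) : ⟪f, g⟫_ℂ = ∑ x, (starRingEnd ℂ) (f x) * g x := by
  rw [PiLp.inner_apply]
  refine Finset.sum_congr rfl fun x _ => ?_
  rw [RCLike.inner_apply, mul_comm]

theorem on_orth {φ : Λ → Λ → ℂ} (h : ON φ) : Orthonormal ℂ fun j => vec (φ j) := by
  rw [orthonormal_iff_ite]
  intro j k
  rw [ip]
  exact h j k

/-- the operator -/
noncomputable def op (A : Matrix Λ Λ ℂ) : EuclideanSpace ℂ Λ →ₗ[ℂ] EuclideanSpace ℂ Λ := Matrix.toEuclideanLin A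

theorem op_apply (A : Matrix Λ Λ ℂ) (v : EuclideanSpace ℂ Λ) (x : Λ) : op A v x = ∑ y, A x y * v y := rfl

theorem op_sub (A B : Matrix Λ Λ ℂ) (v : EuclideanSpace ℂ Λ) : op (A - B) v = op A v - op B v := by
  unfold op
  rw [map_sub, LinearMap.sub_apply]

theorem ker_finrank (A : Matrix Λ Λ ℂ) : A.rank + finrank ℂ (LinearMap.ker (op A)) = Fintype.card Λ := by
  have h1 : A.rank = finrank ℂ (LinearMap.range (op A)) := by
    unfold op
    rw [Matrix.toEuclideanLin_eq_toLin]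
    exact Matrix.rank_eq_finrank_range_toLin A _ _
  rw [h1, LinearMap.finrank_range_add_finrank_ker, finrank_euclideanSpace]

theorem norm_sq_sum {φ : Λ → Λ → ℂ} (h : ON φ) (s : Finset Λ) (c : Λ → ℂ) :
    ‖∑ j ∈ s, c j • vec (φ j)‖ ^ 2 = ∑ j ∈ s, ‖c j‖ ^ 2 := by
  have h1 := (on_orth h).inner_sum c c s
  rw [inner_self_eq_norm_sq_to_K] at h1
  have h2 : ∑ j ∈ s, (starRingEnd ℂ) (c j) * c j = ((∑ j ∈ s, ‖c j‖ ^ 2 : ℝ) : ℂ) := by
    push_cast
    refine Finset.sum_congr rfl fun j _ => ?_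
    rw [mul_comm, Complex.mul_conj, Complex.normSq_eq_norm_sq]
    push_cast
    rfl
  rw [h2] at h1
  have h3 : ((‖∑ j ∈ s, c j • vec (φ j)‖ ^ 2 : ℝ) : ℂ) = ((∑ j ∈ s, ‖c j‖ ^ 2 : ℝ) : ℂ) := by
    rw [← h1]
    push_cast
    rfl
  exact_mod_cast h3

/-- Bessel's inequality for the rows -/
theorem hs_ge (B : Matrix Λ Λ ℂ) {m : ℕ} (u : Fin m → EuclideanSpace ℂ Λ) (hu : Orthonormal ℂ u) :
    ∑ i, ‖op B (u i)‖ ^ 2 ≤ ∑ x, ∑ y, ‖B x y‖ ^ 2 := by
  have h1 : ∀ i, ‖op B (u i)‖ ^ 2 = ∑ x, ‖⟪u i, vec fun y => (starRingEnd ℂ) (B x y)⟫_ℂ‖ ^ 2 := by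
    intro i
    rw [EuclideanSpace.norm_sq_eq]
    refine Finset.sum_congr rfl fun x _ => ?_
    rw [norm_inner_symm, ip, op_apply]
    congr 2
    refine Finset.sum_congr rfl fun y _ => ?_
    rw [vec_apply, Complex.conj_conj]
  simp only [h1]
  rw [Finset.sum_comm]
  refine Finset.sum_le_sum fun x _ => ?_
  refine (hu.sum_inner_products_le (vec fun y => (starRingEnd ℂ) (B x y)) (s := Finset.univ)).trans (le_of_eq ?_)
  rw [EuclideanSpace.norm_sq_eq]
  refine Finset.sum_congr rfl fun y _ => ?_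
  rw [vec_apply, RCLike.norm_conj]

end

theorem tai : S_TAI := by
  intro Λ _ _ A B φ e hφ hA R hR
  classical
  set s : Finset Λ := Finset.univ.filter fun j => R < |e j| with hs
  have horth := on_orth hφ
  set W : Submodule ℂ (EuclideanSpace ℂ Λ) := Submodule.span ℂ (Set.range fun j : s => vec (φ j)) with hW
  have hWr : finrank ℂ W = s.card := by
    have hli : LinearIndependent ℂ fun j : s => vec (φ j) :=
      horth.linearIndependent.comp (fun j : s => (j : Λ)) Subtype.val_injective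
    rw [hW, finrank_span_eq_card hli, Fintype.card_coe]
  set K := LinearMap.ker (op (A - B)) with hK
  have hKr : (A - B).rank + finrank ℂ K = Fintype.card Λ := ker_finrank _
  have hdim := Submodule.finrank_sup_add_finrank_inf_eq W K
  have hle : finrank ℂ (W ⊔ K : Submodule ℂ (EuclideanSpace ℂ Λ)) ≤ Fintype.card Λ := by
    refine (Submodule.finrank_le _).trans (le_of_eq ?_)
    exact finrank_euclideanSpace
  set U : Submodule ℂ (EuclideanSpace ℂ Λ) := W ⊓ K with hU
  have hUr : (s.card : ℝ) - (A - B).rank ≤ finrank ℂ U := by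
    have h1 : s.card ≤ finrank ℂ U + (A - B).rank := by omega
    have h2 : (s.card : ℝ) ≤ finrank ℂ U + (A - B).rank := by exact_mod_cast h1
    linarith
  -- the bound on `U`
  have hbd : ∀ u ∈ U, R ^ 2 * ‖u‖ ^ 2 ≤ ‖op B u‖ ^ 2 := by
    intro u hu
    have hu1 : u ∈ W := hu.1
    have hu2 : op (A - B) u = 0 := hu.2
    rw [op_sub, sub_eq_zero] at hu2
    rw [← hu2]
    rw [hW, Submodule.mem_span_range_iff_exists_fun] at hu1
    obtain ⟨c, hc⟩ := hu1
    have hc' : ∑ j ∈ s, (if h : j ∈ s then c ⟨j, h⟩ else 0) • vec (φ j) = u := by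
      rw [← hc, ← Finset.sum_coe_sort s]
      refine Finset.sum_congr rfl fun j _ => ?_
      rw [dif_pos j.2]
    set d : Λ → ℂ := fun j => if h : j ∈ s then c ⟨j, h⟩ else 0 with hd
    have hop : op A u = ∑ j ∈ s, ((e j : ℂ) * d j) • vec (φ j) := by
      rw [← hc', map_sum]
      refine Finset.sum_congr rfl fun j _ => ?_
      rw [map_smul]
      have h1 : op A (vec (φ j)) = (e j : ℂ) • vec (φ j) := by
        ext x
        rw [op_apply]
        exact hA j x
      rw [h1, smul_smul, mul_comm]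
    rw [hop, ← hc', norm_sq_sum hφ, norm_sq_sum hφ, Finset.mul_sum]
    refine Finset.sum_le_sum fun j hj => ?_
    have h1 : R < |e j| := (Finset.mem_filter.1 hj).2
    rw [norm_mul, mul_pow, Complex.norm_real, Real.norm_eq_abs]
    exact mul_le_mul_of_nonneg_right (pow_le_pow_left₀ hR h1.le 2) (by positivity)
  -- orthonormal basis
  let b := stdOrthonormalBasis ℂ U
  have hbo : Orthonormal ℂ fun i => ((b i : U) : EuclideanSpace ℂ Λ) := by
    have h1 := b.orthonormal
    rw [orthonormal_iff_ite] at h1 ⊢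
    intro i j
    rw [← h1 i j]
    rfl
  have h1 := hs_ge B _ hbo
  refine le_trans ?_ h1
  have h2 : ∀ i, R ^ 2 ≤ ‖op B ((b i : U) : EuclideanSpace ℂ Λ)‖ ^ 2 := by
    intro i
    have h3 := hbd _ (b i).2
    have h4 : ‖((b i : U) : EuclideanSpace ℂ Λ)‖ = 1 := hbo.1 i
    rw [h4] at h3
    simpa using h3
  calc R ^ 2 * ((s.card : ℝ) - (A - B).rank) ≤ R ^ 2 * finrank ℂ U :=
        mul_le_mul_of_nonneg_left hUr (by positivity)
    _ = ∑ _i : Fin (finrank ℂ U), R ^ 2 := by
        rw [Finset.sum_const, Finset.card_univ, Fintype.card_fin, nsmul_eq_mul, mul_comm]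
    _ ≤ _ := Finset.sum_le_sum fun i _ => h2 i

end Pool.Agent.Q252.HB
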